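import Pool.Agent.Lib.MP_8cfc4a_al.Main

namespace Pool.Agent.Results.MP_8cfc4a_al.SuperExpDehn

open Pool.Agent.Lib.MP_8cfc4a_al

/-- There is a finitely presented subgroup of a right-angled Artin group on a finite graph whose
Dehn function (for every finite presentation) is super-exponential. -/
theorem result :
    ∃ (V : Type) (_ : Finite V) (Γ : SimpleGraph V) (H : Subgroup (RAAG Γ)),
      Group.IsFinitelyPresented H ∧
      ∀ (S : Type) (_ : Finite S) (R : Set (FreeGroup S)), R.Finite →
        Nonempty (PresentedGroup R ≃* H) → SuperExp fun n => (dehn R n : ℝ) :=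
  main

end Pool.Agent.Results.MP_8cfc4a_al.SuperExpDehn
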